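import Pool.Agent.Helper76.PC.Stmts

set_option autoImplicit false

namespace Pool.Agent.Helper17.PC

open Pool.Agent.Helper76.PC

theorem emb_embR (hL : ST_LST) (S : Cfg) (mp : List ℕ) (fl : Bool) : ∀ R : Cfg,
    embR S mp fl R = true → ∀ r ∈ R, ∃ q ∈ S, q.id = nthD mp r.id 0 ∧ r.lo ≤ q.lo ∧
      q.hi ≤ r.hi ∧ q.sd = xor fl r.sd ∧ ∀ y ∈ r.nb, nthD mp y 0 ∈ q.nb := by
  obtain ⟨hmem, _, _, _, hall, _, hget, _⟩ := hL
  intro R
  induction R with
  | nil => intro _ r hr; simp at hr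
  | cons a R ih =>
    intro h r hr
    rw [embR, Bool.and_eq_true] at h
    obtain ⟨h1, h2⟩ := h
    rcases List.mem_cons.mp hr with rfl | hr
    · cases hq : getV (nthD mp r.id 0) S with
      | none => rw [hq] at h1; simp at h1
      | some q =>
        rw [hq] at h1
        simp only [Bool.and_eq_true] at h1
        obtain ⟨⟨⟨h3, h4⟩, h5⟩, h6⟩ := h1
        obtain ⟨h7, h8⟩ := hget _ _ _ hq
        refine ⟨q, h7, h8, Nat.le_of_ble_eq_true h3, Nat.le_of_ble_eq_true h4, ?_, ?_⟩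
        · revert h5
          cases q.sd <;> cases fl <;> cases r.sd <;> decide
        · intro y hy
          exact (hmem _ _).mp ((hall _ _).mp h6 y hy)
    · exact ih h2 r hr

theorem emb_wfC (hL : ST_LST) (K0 : Cfg) : ∀ R : Cfg, wfC K0 R = true → ∀ r ∈ R,
    r.nb.Nodup ∧ ∀ y ∈ r.nb, ∃ q ∈ K0, q.id = y := by
  obtain ⟨_, _, _, _, hall, _, hget, _, hnd, _⟩ := hL
  intro R
  induction R with
  | nil => intro _ r hr; simp at hr
  | cons a R ih =>
    intro h r hr
    rw [wfC, Bool.and_eq_true, Bool.and_eq_true] at h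
    obtain ⟨⟨h1, h2⟩, h3⟩ := h
    rcases List.mem_cons.mp hr with rfl | hr
    · refine ⟨(hnd _).mp h1, ?_⟩
      intro y hy
      have h4 := (hall _ _).mp h2 y hy
      cases hq : getV y K0 with
      | none => rw [hq] at h4; simp at h4
      | some q =>
        obtain ⟨h7, h8⟩ := hget _ _ _ hq
        exact ⟨q, h7, h8⟩
    · exact ih h3 r hr

theorem st_EMB (h : ST_LST) : ST_EMB := by
  intro R S mp fl hwf hemb G φ f hE
  rw [embOK, Bool.and_eq_true] at hemb
  obtain ⟨h1, h2⟩ := hemb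
  have hR := emb_embR h S mp fl R h1
  have hW := emb_wfC h R R hwf
  have hnd : ((ids R).map (fun x => nthD mp x 0)).Nodup := by
    have h3 := h.2.2.2.2.2.2.2.2.1
    have h4 := h.2.2.2.2.2.2.2.2.2.1
    rw [← h4]
    exact (h3 _).mp h2
  have hids : ∀ K : Cfg, ids K = K.map Vx.id := h.2.2.2.2.2.2.2.2.2.2.1
  refine ⟨?_, ?_, ?_, ?_, ?_, ?_, ?_, ?_⟩
  · intro r hr
    obtain ⟨q, hq, hid, _⟩ := hR r hr
    show φ (nthD mp r.id 0) ∈ G.V
    rw [← hid]
    exact hE.memV q hq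
  · intro r hr
    obtain ⟨q, hq, hid, _, _, hsd, _⟩ := hR r hr
    show side (φ (nthD mp r.id 0)) = xor (xor f fl) r.sd
    rw [← hid, hE.sd q hq, hsd]
    cases f <;> cases fl <;> cases r.sd <;> rfl
  · intro r hr
    obtain ⟨q, hq, hid, hlo, _⟩ := hR r hr
    show r.lo ≤ (G.N (φ (nthD mp r.id 0))).card
    rw [← hid]
    exact hlo.trans (hE.lo q hq)
  · intro r hr
    obtain ⟨q, hq, hid, _, hhi, _⟩ := hR r hr
    show (G.N (φ (nthD mp r.id 0))).card ≤ r.hi
    rw [← hid]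
    exact (hE.hi q hq).trans hhi
  · intro r hr
    exact (hW r hr).1
  · intro r hr y hy
    obtain ⟨q, hq, hid, _, _, _, hnb⟩ := hR r hr
    show φ (nthD mp y 0) ∈ G.N (φ (nthD mp r.id 0))
    rw [← hid]
    exact hE.adj q hq _ (hnb y hy)
  · intro r hr y hy
    exact (hW r hr).2 y hy
  · intro r hr q hq heq
    obtain ⟨r', hr', hidr, _⟩ := hR r hr
    obtain ⟨q', hq', hidq, _⟩ := hR q hq
    have heq' : φ (nthD mp r.id 0) = φ (nthD mp q.id 0) := heq
    have h5 : nthD mp r.id 0 = nthD mp q.id 0 := by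
      rw [← hidr, ← hidq] at heq' ⊢
      exact hE.inj r' hr' q' hq' heq'
    have hr2 : r.id ∈ ids R := by rw [hids]; exact List.mem_map_of_mem hr
    have hq2 : q.id ∈ ids R := by rw [hids]; exact List.mem_map_of_mem hq
    exact List.inj_on_of_nodup_map hnd hr2 hq2 h5

end Pool.Agent.Helper17.PC
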