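import Pool.Agent.Helper76.PC.Stmts

set_option autoImplicit false

namespace Pool.Agent.Helper17.PC

open Pool.Agent.Helper76.PC

theorem st_EMP : ST_EMP := by
  intro G hV
  have h : PM G = {fun x => x} := by
    ext m
    simp only [PM, Set.mem_setOf_eq, Set.mem_singleton_iff, hV, Finset.notMem_empty,
      IsEmpty.forall_iff, implies_true, not_false_eq_true, true_implies, true_and]
    constructor
    · rintro ⟨h1, _⟩
      funext x
      exact h1 x
    · rintro rfl
      exact ⟨fun _ => rfl, fun _ => rfl⟩
  rw [P, h, Set.ncard_singleton]

end Pool.Agent.Helper17.PC
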